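import Pool.Agent.K1H14.SD.Stm2
import Pool.Agent.K1H59.SD.TR
import Pool.Agent.K1H85.SD.Avg

/-!
# Project SD (helper14), piece SIM: the even Clifford algebra in odd dimension is a matrix algebra
-/

set_option autoImplicit false

namespace Pool.Agent.K1H65.SD

open Pool.Agent.K1H14.SD

universe u

theorem simple {A : Type u} [Ring A] [Algebra ℂ A] {d : ℕ} (M : Finset (Fin d) → A)
    (st : A →ₗ[ℂ] A) (tr : A →ₗ[ℂ] ℂ) (h : EvenCl M st) (htr : IsTr M tr) : IsSimpleRing A := by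
  obtain ⟨h1, h2⟩ := Pool.Agent.K1H85.SD.t_AVG M st tr h htr
  rw [isSimpleRing_iff_isTwoSided_imp]
  refine ⟨⟨⟨1, 0, h.ne⟩⟩, fun I hI => ?_⟩
  by_cases hb : I = ⊥
  · exact Or.inl hb
  · right
    obtain ⟨a, ha, ha0⟩ := Submodule.exists_mem_ne_zero_of_ne_bot hb
    have hK : ∃ K ∈ evs d, tr (st (M K) * a) ≠ 0 := by
      by_contra hcon
      push Not at hcon
      apply ha0
      rw [h2 a]
      exact Finset.sum_eq_zero fun K hK => by rw [hcon K hK, zero_smul]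
    obtain ⟨K, -, hK⟩ := hK
    have hx : st (M K) * a ∈ I := I.mul_mem_left _ ha
    have hsum : ((2 : ℂ) ^ (d - 1) * tr (st (M K) * a)) • (1 : A) ∈ I := by
      rw [← h1]
      refine I.sum_mem fun L _ => ?_
      exact I.mul_mem_right _ (I.mul_mem_left _ hx)
    rw [Ideal.eq_top_iff_one]
    have hc : (2 : ℂ) ^ (d - 1) * tr (st (M K) * a) ≠ 0 := mul_ne_zero (pow_ne_zero _ two_ne_zero) hK
    have h3 := I.mul_mem_left (algebraMap ℂ A ((2 : ℂ) ^ (d - 1) * tr (st (M K) * a))⁻¹) hsum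
    rw [← Algebra.smul_def, smul_smul, inv_mul_cancel₀ hc, one_smul] at h3
    exact h3

theorem t_SIM : S_SIM.{u} := by
  intro A _ _ d M st h
  obtain ⟨hfin, tr, htr⟩ := Pool.Agent.K1H59.SD.t_TR M st h
  have := simple M st tr h htr
  obtain ⟨n, _, e⟩ := IsSimpleRing.exists_algEquiv_matrix_of_isAlgClosed ℂ A
  exact ⟨n, e⟩

end Pool.Agent.K1H65.SD
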